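import Pool.Agent.Helper5.FRC.Defs

/-!
# Project FRC (MP_79b960_co): packet FRC-NPR
-/

set_option autoImplicit false

namespace Pool.Agent.Helper9.FRC.NPR

open Finset Pool.Agent.Helper5.FRC

/-- The points of a circuit, in their order. -/
theorem enum {V : Type} [Fintype V] [DecidableEq V] (n : Equiv.Perm V) (C : Finset V)
    (hC : Cir n C) (p : V) (hp : p ∈ C) :
    (∀ i, (n : V → V)^[i] p ∈ C) ∧ (∀ x ∈ C, ∃ i < C.card, (n : V → V)^[i] p = x) ∧
      (∀ i < C.card, ∀ j < C.card, (n : V → V)^[i] p = (n : V → V)^[j] p → i = j) := by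
  obtain ⟨_, hI, hM⟩ := hC
  have hmem : ∀ i, (n : V → V)^[i] p ∈ C := by
    intro i
    induction i with
    | zero => exact hp
    | succ i ih =>
      rw [Function.iterate_succ_apply']
      exact hI _ ih
  have hper : p ∈ Function.periodicPts (n : V → V) := n.injective.mem_periodicPts p
  have hpos : 0 < Function.minimalPeriod (n : V → V) p :=
    Function.minimalPeriod_pos_of_mem_periodicPts hper
  have hinj : ∀ i < Function.minimalPeriod (n : V → V) p,
      ∀ j < Function.minimalPeriod (n : V → V) p,
      (n : V → V)^[i] p = (n : V → V)^[j] p → i = j := by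
    intro i hi j hj hij
    exact Function.iterate_injOn_Iio_minimalPeriod (f := (n : V → V)) (x := p) hi hj hij
  have hD : (range (Function.minimalPeriod (n : V → V) p)).image
      (fun i => (n : V → V)^[i] p) = C := by
    refine hM _ ?_ ?_ ?_
    · intro x hx
      obtain ⟨i, _, rfl⟩ := mem_image.mp hx
      exact hmem i
    · exact ⟨p, mem_image.mpr ⟨0, mem_range.mpr hpos, rfl⟩⟩
    · intro x hx
      obtain ⟨i, hi, rfl⟩ := mem_image.mp hx
      rw [mem_range] at hi
      rcases Nat.lt_or_ge (i + 1) (Function.minimalPeriod (n : V → V) p) with h | h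
      · refine mem_image.mpr ⟨i + 1, mem_range.mpr h, ?_⟩
        exact Function.iterate_succ_apply' _ _ _
      · have he : i + 1 = Function.minimalPeriod (n : V → V) p := by omega
        refine mem_image.mpr ⟨0, mem_range.mpr hpos, ?_⟩
        have h2 : (n : V → V)^[i + 1] p = p := by
          rw [he]
          exact Function.iterate_minimalPeriod
        rw [Function.iterate_succ_apply'] at h2
        exact h2.symm
  have hcard : C.card = Function.minimalPeriod (n : V → V) p := by
    rw [← hD, card_image_of_injOn, card_range]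
    intro i hi j hj hij
    exact hinj i (by simpa using hi) j (by simpa using hj) hij
  refine ⟨hmem, ?_, ?_⟩
  · intro x hx
    rw [← hD] at hx
    obtain ⟨i, hi, rfl⟩ := mem_image.mp hx
    exact ⟨i, by rw [hcard]; exact mem_range.mp hi, rfl⟩
  · rw [hcard]
    exact hinj

theorem t : NprStmt := by
  intro V _ _ n C hC hodd p hp
  obtain ⟨hmem, hsurj, hinj⟩ := enum n C hC p hp
  obtain ⟨g, hg⟩ : ∃ g : V → ℕ, ∀ i < C.card, g ((n : V → V)^[i] p) = i := by
    classical
    refine ⟨fun x => if h : ∃ i, i < C.card ∧ (n : V → V)^[i] p = x then Nat.find h else 0, ?_⟩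
    intro i hi
    have h : ∃ j, j < C.card ∧ (n : V → V)^[j] p = (n : V → V)^[i] p := ⟨i, hi, rfl⟩
    simp only [dif_pos h]
    have h2 := Nat.find_spec h
    exact hinj _ h2.1 i hi h2.2
  have hL : 0 < C.card := card_pos.mpr ⟨p, hp⟩
  have hodd2 : C.card % 2 = 1 := Nat.odd_iff.mp hodd
  refine ⟨fun x => if g x = 0 then x else if g x % 2 = 1 then n x else n.symm x, ?_⟩
  intro x hx
  obtain ⟨i, hi, rfl⟩ := hsurj x hx
  have hp0 : (n : V → V)^[0] p = p := rfl
  rcases Nat.eq_zero_or_pos i with h0 | h0
  · subst h0
    have h1 : g ((n : V → V)^[0] p) = 0 := hg 0 hi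
    simp only [h1, if_true]
    exact ⟨hmem 0, trivial, Or.inl trivial, fun _ => hp0, fun _ => trivial⟩
  · have hgi : g ((n : V → V)^[i] p) = i := hg i hi
    have hne : (n : V → V)^[i] p ≠ p := fun h => by
      have := hinj i hi 0 hL h
      omega
    rcases Nat.mod_two_eq_zero_or_one i with hm | hm
    · -- even index
      obtain ⟨k, rfl⟩ : ∃ k, i = k + 1 := ⟨i - 1, by omega⟩
      have hk : k < C.card := by omega
      have hs : n.symm ((n : V → V)^[k + 1] p) = (n : V → V)^[k] p := by
        rw [Function.iterate_succ_apply']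
        exact n.symm_apply_apply _
      have hgk : g ((n : V → V)^[k] p) = k := hg k hk
      have hn : n ((n : V → V)^[k] p) = (n : V → V)^[k + 1] p :=
        (Function.iterate_succ_apply' _ _ _).symm
      have e1 : ¬ (k + 1 = 0) := by omega
      have e2 : ¬ ((k + 1) % 2 = 1) := by omega
      have e3 : ¬ (k = 0) := by omega
      have e4 : k % 2 = 1 := by omega
      simp only [hgi, if_neg e1, if_neg e2, hs, hgk, if_neg e3, if_pos e4, hn]
      refine ⟨hmem k, trivial, Or.inr (Or.inr trivial), ?_, ?_⟩
      · intro h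
        have := hinj k hk (k + 1) hi h
        omega
      · intro h
        exact absurd h hne
    · -- odd index
      have hk : i + 1 < C.card := by omega
      have hn : n ((n : V → V)^[i] p) = (n : V → V)^[i + 1] p :=
        (Function.iterate_succ_apply' _ _ _).symm
      have hs : n.symm ((n : V → V)^[i + 1] p) = (n : V → V)^[i] p := by
        rw [Function.iterate_succ_apply']
        exact n.symm_apply_apply _
      have hgk : g ((n : V → V)^[i + 1] p) = i + 1 := hg (i + 1) hk
      have e1 : ¬ (i = 0) := by omega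
      have e2 : ¬ (i + 1 = 0) := by omega
      have e3 : ¬ ((i + 1) % 2 = 1) := by omega
      simp only [hgi, if_neg e1, if_pos hm, hn, hgk, if_neg e2, if_neg e3, hs]
      refine ⟨hmem (i + 1), trivial, Or.inr (Or.inl trivial), ?_, ?_⟩
      · intro h
        have := hinj (i + 1) hk i hi h
        omega
      · intro h
        exact absurd h hne

end Pool.Agent.Helper9.FRC.NPR
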