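import Pool.Agent.Helper5.FRC.GoalsG
import Pool.Agent.Helper26.FRC.DIS

/-!
# Project FRC (MP_79b960_co): packet FRC-DISG
-/

set_option autoImplicit false
set_option linter.unusedSectionVars false

namespace Pool.Agent.Helper9.FRC.DISG

open Finset Pool.Agent.Helper5.FRC
open Pool.Agent.Helper26.FRC.DIS (inv_sdiff inv_inter inv_union dm_sdiff even_card)

section

variable {V : Type} [Fintype V] [DecidableEq V]

/-- The main computation. -/
theorem core (HS : SubmStmt) {n : Equiv.Perm V} {A Z : Finset V} {t : V → V} {l : ℕ}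
    (hA : Inv n A) (hP : Prg A t) (hB : Bl n A t (l + 2 * ((Z.card - 2) / 4))) (hZ : Z ⊆ A)
    (hZi : Inv n Z) (hev : Z.card % 2 = 0)
    {K K' W W' : Finset V} (hK : K ⊆ A \ Z) (hK' : K' ⊆ A \ Z) (hW : W ⊆ Z) (hW' : W' ⊆ Z)
    (iK : Inv n K) (iK' : Inv n K') (d : dm t (K ∪ W) + 2 ≤ l) (d' : dm t (K' ∪ W') + 2 ≤ l)
    (oK : Odd K.card) (oK' : Odd K'.card) (o : Odd (K ∩ K').card)
    (c : (W ∩ W').card + (Z \ (W ∪ W')).card + 2 ≤ Z.card) : False := by
  have hKA : ∀ x ∈ K, x ∈ A ∧ x ∉ Z := fun x hx => mem_sdiff.mp (hK hx)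
  have hKA' : ∀ x ∈ K', x ∈ A ∧ x ∉ Z := fun x hx => mem_sdiff.mp (hK' hx)
  have hU : K ∪ W ⊆ A := union_subset (fun x hx => (hKA x hx).1) (hW.trans hZ)
  have hU' : K' ∪ W' ⊆ A := union_subset (fun x hx => (hKA' x hx).1) (hW'.trans hZ)
  have s1 := (HS V A (K ∪ W) (K' ∪ W') t hP hU hU').1
  have hUU : (K ∪ W) ∪ (K' ∪ W') ⊆ A := union_subset hU hU'
  have s2 := (HS V A ((K ∪ W) ∪ (K' ∪ W')) A t hP hUU Subset.rfl).2.1
  have e1 : ((K ∪ W) ∩ (K' ∪ W')) \ Z = K ∩ K' := by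
    ext x
    simp only [mem_sdiff, mem_inter, mem_union]
    have h1 := hKA x
    have h2 := hKA' x
    have h3 := @hW x
    have h4 := @hW' x
    tauto
  have e2 : ((K ∪ W) ∩ (K' ∪ W')) ∩ Z = W ∩ W' := by
    ext x
    simp only [mem_inter, mem_union]
    have h1 := hKA x
    have h2 := hKA' x
    have h3 := @hW x
    have h4 := @hW' x
    tauto
  have e3 : (A \ ((K ∪ W) ∪ (K' ∪ W'))) ∩ Z = Z \ (W ∪ W') := by
    ext x
    simp only [mem_sdiff, mem_inter, mem_union]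
    have h1 := hKA x
    have h2 := hKA' x
    have h3 := @hZ x
    tauto
  have e4 : (A \ ((K ∪ W) ∪ (K' ∪ W'))) \ Z = (A \ Z) \ (K ∪ K') := by
    ext x
    simp only [mem_sdiff, mem_union]
    have h3 := @hW x
    have h4 := @hW' x
    tauto
  have b1 := dm_sdiff (Z := Z) hP (inter_subset_left.trans hU : (K ∪ W) ∩ (K' ∪ W') ⊆ A)
  have b2 := dm_sdiff (Z := Z) hP
    (sdiff_subset : A \ ((K ∪ W) ∪ (K' ∪ W')) ⊆ A)
  rw [e1, e2] at b1
  rw [e4, e3, s2] at b2
  have iX : Inv n (K ∩ K') := inv_inter iK iK'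
  have iX' : Inv n ((A \ Z) \ (K ∪ K')) := inv_sdiff (inv_sdiff hA hZi) (inv_union iK iK')
  have hX : K ∩ K' ⊆ A := fun x hx => (hKA x (mem_inter.mp hx).1).1
  have hX' : (A \ Z) \ (K ∪ K') ⊆ A := sdiff_subset.trans sdiff_subset
  have k1 := even_card HS hP
  have k2 : (A \ Z).card = A.card - Z.card := card_sdiff_of_subset hZ
  have k3 : ((A \ Z) \ (K ∪ K')).card = (A \ Z).card - (K ∪ K').card :=
    card_sdiff_of_subset (union_subset hK hK')
  have k4 := card_union_add_card_inter K K'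
  have k5 : (K ∪ K').card ≤ (A \ Z).card := card_le_card (union_subset hK hK')
  have k6 : Z.card ≤ A.card := card_le_card hZ
  rw [Nat.odd_iff] at oK oK' o
  have o' : ((A \ Z) \ (K ∪ K')).card % 2 = 1 := by omega
  have n1 := hB _ hX iX (Nat.odd_iff.mpr o)
  have n2 := hB _ hX' iX' (Nat.odd_iff.mpr o')
  omega

/-- The four parts of `Z`. -/
theorem parts {Z W W' : Finset V} (hW : W ⊆ Z) (hW' : W' ⊆ Z) :
    (W ∩ W').card + (W \ W').card + ((W' \ W).card + (Z \ (W ∪ W')).card) = Z.card ∧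
      (W ∩ W').card + (W \ W').card = W.card ∧ (W ∩ W').card + (W' \ W).card = W'.card := by
  have h1 := card_inter_add_card_sdiff W W'
  have h2 := card_inter_add_card_sdiff W' W
  have h3 := card_sdiff_add_card_eq_card (union_subset hW hW')
  have h4 := card_union_add_card_inter W W'
  rw [inter_comm W' W] at h2
  omega

/-- Two bad sets for the two pairings. -/
theorem two (HS : SubmStmt) {n : Equiv.Perm V} {A Z : Finset V} {t : V → V} {l : ℕ}
    (hA : Inv n A) (hP : Prg A t) (hB : Bl n A t (l + 2 * ((Z.card - 2) / 4))) (hZ : Z ⊆ A)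
    (hZi : Inv n Z) (hev : Z.card % 2 = 0)
    {K K' W W' : Finset V} (hK : K ⊆ A \ Z) (hK' : K' ⊆ A \ Z) (hW : W ⊆ Z) (hW' : W' ⊆ Z)
    (iK : Inv n K) (iK' : Inv n K') (d : dm t (K ∪ W) + 2 ≤ l) (d' : dm t (K' ∪ W') + 2 ≤ l)
    (oK : Odd K.card) (oK' : Odd K'.card) (w : W.card % 2 = 0) (w' : W'.card % 2 = 0)
    (ne1 : W ≠ W') (ne2 : W ≠ Z \ W') : False := by
  obtain ⟨p1, p2, p3⟩ := parts hW hW'
  rcases Nat.even_or_odd (K ∩ K').card with o | o
  · have hKA' : ∀ x ∈ K', x ∈ A ∧ x ∉ Z := fun x hx => mem_sdiff.mp (hK' hx)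
    have hU' : K' ∪ W' ⊆ A := union_subset (fun x hx => (hKA' x hx).1) (hW'.trans hZ)
    have e : ((A \ Z) \ K') ∪ (Z \ W') = A \ (K' ∪ W') := by
      ext x
      simp only [mem_sdiff, mem_union]
      have h1 := hKA' x
      have h2 := @hZ x
      have h3 := @hW' x
      tauto
    have k1 := even_card HS hP
    have k2 : (A \ Z).card = A.card - Z.card := card_sdiff_of_subset hZ
    have k3 : ((A \ Z) \ K').card = (A \ Z).card - K'.card := card_sdiff_of_subset hK'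
    have k4 : K'.card ≤ (A \ Z).card := card_le_card hK'
    have k6 : Z.card ≤ A.card := card_le_card hZ
    have e2 : K ∩ ((A \ Z) \ K') = K \ (K ∩ K') := by
      ext x
      simp only [mem_sdiff, mem_inter]
      have h1 := @hK x
      rw [mem_sdiff] at h1
      tauto
    have k7 : (K ∩ ((A \ Z) \ K')).card = K.card - (K ∩ K').card := by
      rw [e2, card_sdiff_of_subset inter_subset_left]
    have k8 : (K ∩ K').card ≤ K.card := card_le_card inter_subset_left
    have e3 : W ∩ (Z \ W') = W \ W' := by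
      ext x
      simp only [mem_sdiff, mem_inter]
      have h1 := @hW x
      tauto
    have e4 : Z \ (W ∪ (Z \ W')) = W' \ W := by
      ext x
      simp only [mem_sdiff, mem_union]
      have h1 := @hW' x
      tauto
    have hne : (W ∩ W').card + (Z \ (W ∪ W')).card ≠ 0 := by
      intro h0
      have h1 : W ∩ W' = ∅ := card_eq_zero.mp (by omega)
      have h2 : Z \ (W ∪ W') = ∅ := card_eq_zero.mp (by omega)
      apply ne2
      ext x
      rw [mem_sdiff]
      constructor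
      · intro hx
        refine ⟨hW hx, fun hx' => ?_⟩
        have : x ∈ W ∩ W' := mem_inter.mpr ⟨hx, hx'⟩
        rw [h1] at this
        exact absurd this (notMem_empty x)
      · rintro ⟨hx, hx'⟩
        by_contra hxW
        have : x ∈ Z \ (W ∪ W') := mem_sdiff.mpr ⟨hx, fun h => (mem_union.mp h).elim hxW hx'⟩
        rw [h2] at this
        exact absurd this (notMem_empty x)
    rw [Nat.odd_iff] at oK oK'
    rw [Nat.even_iff] at o
    refine core HS hA hP hB hZ hZi hev (K := K) (K' := (A \ Z) \ K') (W := W) (W' := Z \ W') hK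
      sdiff_subset hW sdiff_subset iK (inv_sdiff (inv_sdiff hA hZi) iK') d ?_
      (Nat.odd_iff.mpr oK) (Nat.odd_iff.mpr (by omega)) (Nat.odd_iff.mpr (by omega)) ?_
    · rw [e, (HS V A (K' ∪ W') A t hP hU' Subset.rfl).2.1]
      exact d'
    · rw [e3, e4]
      omega
  · have hne : (W \ W').card + (W' \ W).card ≠ 0 := by
      intro h0
      have h1 : W \ W' = ∅ := card_eq_zero.mp (by omega)
      have h2 : W' \ W = ∅ := card_eq_zero.mp (by omega)
      exact ne1 (Subset.antisymm (sdiff_eq_empty_iff_subset.mp h1)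
        (sdiff_eq_empty_iff_subset.mp h2))
    exact core HS hA hP hB hZ hZi hev hK hK' hW hW' iK iK' d d' oK oK' o (by omega)

/-- One pairing: it is good or gives a bad set. -/
theorem half (HS : SubmStmt) {n : Equiv.Perm V} {A Z : Finset V} {t p t' : V → V} {l : ℕ}
    (hl : Odd l) (hB : Bl n A t (l + 2 * ((Z.card - 2) / 4))) (hZ : Z ⊆ A)
    (hZi : Inv n Z) (hev : Z.card % 2 = 0) (hp : Prg Z p) (ht' : Prg (A \ Z) t')
    (hlift : ∀ K ⊆ A \ Z, ∃ W ⊆ Z, (∀ z ∈ W, p z ∈ W) ∧ dm t (K ∪ W) = dm t' K)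
    (hbad : ¬ Bl n (A \ Z) t' l) :
    ∃ K W : Finset V, K ⊆ A \ Z ∧ W ⊆ Z ∧ Inv n K ∧ dm t (K ∪ W) + 2 ≤ l ∧ Odd K.card ∧
      (∀ z ∈ W, p z ∈ W) ∧ W.card % 2 = 0 ∧ W ≠ ∅ ∧ W ≠ Z := by
  unfold Bl at hbad
  push Not at hbad
  obtain ⟨K, hK, iK, oK, hd⟩ := hbad
  obtain ⟨W, hW, hWp, hWd⟩ := hlift K hK
  have hpar := (HS V (A \ Z) K (A \ Z) t' ht' hK Subset.rfl).2.2
  have hPW : Prg W p := fun x hx => ⟨hWp x hx, (hp x (hW hx)).2.1, (hp x (hW hx)).2.2⟩
  have hWe := even_card HS hPW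
  have oK1 := Nat.odd_iff.mp oK
  have ol1 := Nat.odd_iff.mp hl
  refine ⟨K, W, hK, hW, iK, by omega, oK, hWp, hWe, ?_, ?_⟩
  · intro h0
    rw [h0, union_empty] at hWd
    have := hB K (hK.trans sdiff_subset) iK oK
    omega
  · intro hWZ
    rw [hWZ] at hWd
    have hdis : Disjoint K Z := by
      rw [disjoint_left]
      exact fun x hx => (mem_sdiff.mp (hK hx)).2
    have := hB (K ∪ Z) (union_subset (hK.trans sdiff_subset) hZ) (inv_union iK hZi) (by
      rw [card_union_of_disjoint hdis, Nat.odd_iff]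
      omega)
    omega

end

/-- **DISG**. -/
theorem t (HS : SubmStmt) (HC : CloseStmt) (HE : EvenpStmt) : DisgStmt := by
  intro V _ _ n A Z t l hA hP hl hB hZ hC hev
  obtain ⟨p, p', hp, hp', hpp⟩ := HE V n Z hC hev
  obtain ⟨t1, ht1, hl1, hu1⟩ := HC V A Z t p hP hZ hp
  obtain ⟨t2, ht2, hl2, hu2⟩ := HC V A Z t p' hP hZ hp'
  by_cases b1 : Bl n (A \ Z) t1 l
  · exact ⟨p, t1, hp, fun z hz => (hpp z hz).1, ht1, hl1, hu1, b1⟩
  by_cases b2 : Bl n (A \ Z) t2 l
  · exact ⟨p', t2, hp', fun z hz => (hpp z hz).2.1, ht2, hl2, hu2, b2⟩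
  exfalso
  rw [Nat.even_iff] at hev
  obtain ⟨K, W, hK, hW, iK, dK, oK, cW, wW, w0, wZ⟩ :=
    half HS hl hB hZ hC.2.1 hev hp ht1 hl1 b1
  obtain ⟨K', W', hK', hW', iK', dK', oK', cW', wW', w0', wZ'⟩ :=
    half HS hl hB hZ hC.2.1 hev hp' ht2 hl2 b2
  have key : (∀ z ∈ W, p' z ∈ W) → False := by
    intro hc
    have hi : Inv n W := by
      intro z hz
      rcases (hpp z (hW hz)).2.2 with h | h
      · rw [h]
        exact cW z hz
      · rw [h]
        exact hc z hz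
    exact wZ (hC.2.2 W hW (nonempty_iff_ne_empty.mpr w0) hi)
  refine two HS hA hP hB hZ hC.2.1 hev hK hK' hW hW' iK iK' dK dK' oK oK' wW wW' ?_ ?_
  · intro h
    refine key fun z hz => ?_
    rw [h] at hz ⊢
    exact cW' z hz
  · intro h
    refine key fun z hz => ?_
    rw [h, mem_sdiff] at hz ⊢
    refine ⟨(hp' z hz.1).1, fun hz' => hz.2 ?_⟩
    have := cW' _ hz'
    rwa [(hp' z hz.1).2.1] at this

end Pool.Agent.Helper9.FRC.DISG
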